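import Pool.Agent.Helper87.VM.Lib2

/-!
Module MEM of the existence theorem on isotrivial VMRT (`MP_39dd1a_ag`): the lift of a member of
the family to the blow-up.
-/

set_option autoImplicit false

namespace Pool.Agent.Helper87.VM

open MvPolynomial Pool.Agent.Helper48.VMRT

/-- Two continuous functions which agree off the line `s p₀ + t q₀ = 0` agree. -/
theorem mem_ext {p0 q0 : ℂ} (h : p0 ≠ 0 ∨ q0 ≠ 0) {Φ Ψ : ℂ → ℂ → ℂ}
    (hΦ : Continuous fun z : ℂ × ℂ => Φ z.1 z.2) (hΨ : Continuous fun z : ℂ × ℂ => Ψ z.1 z.2)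
    (H : ∀ s t, s * p0 + t * q0 ≠ 0 → Φ s t = Ψ s t) : ∀ s t, Φ s t = Ψ s t := by
  intro s t
  obtain ⟨s1, t1, h1⟩ : ∃ s1 t1 : ℂ, s1 * p0 + t1 * q0 = 1 := by
    rcases h with h | h
    · exact ⟨p0⁻¹, 0, by rw [inv_mul_cancel₀ h]; ring⟩
    · exact ⟨0, q0⁻¹, by rw [inv_mul_cancel₀ h]; ring⟩
  have hl : Continuous fun u : ℂ => ((s + u * s1, t + u * t1) : ℂ × ℂ) := by fun_prop
  have h2 : (fun u : ℂ => Φ (s + u * s1) (t + u * t1)) =
      fun u : ℂ => Ψ (s + u * s1) (t + u * t1) := by
    refine Continuous.ext_on (dense_compl_singleton (-(s * p0 + t * q0))) (hΦ.comp hl)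
      (hΨ.comp hl) ?_
    intro u hu
    refine H _ _ fun h0 => hu ?_
    rw [Set.mem_singleton_iff]
    linear_combination h0 - u * h1
  have h3 := congrFun h2 0
  simpa using h3

theorem mem_cont_hev (d : ℕ) (p : Polynomial ℂ) :
    Continuous fun z : ℂ × ℂ => hev d p z.1 z.2 := by
  unfold hev
  fun_prop

theorem mem_cont_eval {κ : Type} (P : MvPolynomial κ ℂ) {x : ℂ × ℂ → κ → ℂ}
    (hx : ∀ i, Continuous fun z => x z i) : Continuous fun z => eval (x z) P :=
  (MvPolynomial.continuous_eval P).comp (continuous_pi hx)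

/-- The linear forms with coefficients `p`, `q`. -/
theorem mem_hev_lin (a b : ℂ) (s t : ℂ) :
    hev 1 (Polynomial.C a + Polynomial.C b * Polynomial.X) s t = s * a + t * b := by
  simp [hev, Finset.sum_range_succ, Polynomial.coeff_C]
  ring

theorem mem_deg_lin (a b : ℂ) :
    (Polynomial.C a + Polynomial.C b * Polynomial.X).natDegree ≤ 1 := by
  rw [add_comm]
  exact Polynomial.natDegree_linear_le

/-- Restriction of a form to a line. -/
theorem mem_restr {κ : Type} {a : ℕ} {F : MvPolynomial κ ℂ} (hF : HomE a F) (p q : κ → ℂ) :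
    ∃ f : Polynomial ℂ, f.natDegree ≤ a ∧ ∀ s t : ℂ, hev a f s t = eval (s • p + t • q) F := by
  set P : κ → Polynomial ℂ := fun o => Polynomial.C (p o) + Polynomial.C (q o) * Polynomial.X
    with hP
  have hdeg : (aeval P F).natDegree ≤ a := by
    have h1 := MvPolynomial.aeval_natDegree_le (m := a) (n := 1) F
      (isHomogeneous_of_homE hF).totalDegree_le P (fun i => mem_deg_lin _ _)
    rwa [mul_one] at h1
  have hval : ∀ τ : ℂ, (aeval P F).eval τ = eval (p + τ • q) F := by
    intro τ
    have h2 : (Polynomial.evalRingHom τ).comp (aeval P : MvPolynomial κ ℂ →ₐ[ℂ] _).toRingHom =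
        eval (p + τ • q) := by
      apply MvPolynomial.ringHom_ext
      · intro r
        simp
      · intro i
        simp [hP]
        ring
    exact congrArg (fun φ => φ F) h2
  refine ⟨aeval P F, hdeg, ?_⟩
  have h0 : (1 : ℂ) ≠ 0 ∨ (0 : ℂ) ≠ 0 := Or.inl one_ne_zero
  refine mem_ext h0 (mem_cont_hev _ _) (mem_cont_eval F fun i => ?_) ?_
  · simp only [Pi.add_apply, Pi.smul_apply, smul_eq_mul]
    fun_prop
  · intro s t hs
    have hs' : s ≠ 0 := by
      intro h; apply hs; rw [h]; ring
    rw [hev_of_ne hdeg hs', hval]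
    have h3 := hF s (p + (t / s) • q)
    rw [← h3]
    congr 1
    rw [smul_add, smul_smul, mul_div_cancel₀ t hs']

/-- Division of a binary form by a linear form. -/
theorem mem_div {a : ℕ} {p0 q0 : ℂ} (h : p0 ≠ 0 ∨ q0 ≠ 0) {f : Polynomial ℂ}
    (hf : f.natDegree ≤ a + 1) (h0 : hev (a + 1) f q0 (-p0) = 0) :
    ∃ η : Polynomial ℂ, η.natDegree ≤ a ∧
      f = (Polynomial.C p0 + Polynomial.C q0 * Polynomial.X) * η := by
  by_cases hq : q0 = 0
  · have hp : p0 ≠ 0 := h.resolve_right fun h => h hq
    subst hq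
    rw [hev_zero_left] at h0
    have hc : f.coeff (a + 1) = 0 :=
      (mul_eq_zero.1 h0).resolve_right (pow_ne_zero _ (neg_ne_zero.2 hp))
    refine ⟨Polynomial.C p0⁻¹ * f, ?_, ?_⟩
    · refine (Polynomial.natDegree_C_mul_le _ _).trans ?_
      rw [Polynomial.natDegree_le_iff_coeff_eq_zero]
      intro N hN
      rcases Nat.lt_or_ge (a + 1) N with h1 | h1
      · exact Polynomial.coeff_eq_zero_of_natDegree_lt (lt_of_le_of_lt hf h1)
      · have : N = a + 1 := by omega
        rw [this, hc]
    · rw [Polynomial.C_0, zero_mul, add_zero, ← mul_assoc, ← Polynomial.C_mul,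
        mul_inv_cancel₀ hp, Polynomial.C_1, one_mul]
  · rw [hev_of_ne hf hq] at h0
    have hr : f.eval (-p0 / q0) = 0 :=
      (mul_eq_zero.1 h0).resolve_left (pow_ne_zero _ hq)
    obtain ⟨g, hg⟩ := Polynomial.dvd_iff_isRoot.2 hr
    refine ⟨Polynomial.C q0⁻¹ * g, ?_, ?_⟩
    · refine (Polynomial.natDegree_C_mul_le _ _).trans ?_
      by_cases hg0 : g = 0
      · rw [hg0]; simp
      · have h1 : f.natDegree = 1 + g.natDegree := by
          rw [hg, Polynomial.natDegree_mul (Polynomial.X_sub_C_ne_zero _) hg0,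
            Polynomial.natDegree_X_sub_C]
        omega
    · have h2 : Polynomial.C p0 + Polynomial.C q0 * Polynomial.X =
          Polynomial.C q0 * (Polynomial.X - Polynomial.C (-p0 / q0)) := by
        rw [mul_sub, ← Polynomial.C_mul, mul_div_cancel₀ _ hq, Polynomial.C_neg]
        ring
      rw [h2, hg]
      have h3 : (Polynomial.C q0 : Polynomial ℂ) * Polynomial.C q0⁻¹ = 1 := by
        rw [← Polynomial.C_mul, mul_inv_cancel₀ hq, Polynomial.C_1]
      linear_combination (-((Polynomial.X - Polynomial.C (-p0 / q0)) * g)) * h3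

theorem st_MEM : ST_MEM := by
  intro D hD b p q hp c hc
  obtain ⟨a, ha⟩ : ∃ a, D.a = a + 1 := ⟨D.a - 1, by have := hD.fd.two_le; omega⟩
  have ha1 : D.a - 1 = a := by omega
  have hlin : ∀ s t : ℂ, ∀ o, (s • p + t • q) o = s * p o + t * q o := fun s t o => rfl
  -- the forms `F j` along the line
  have hex : ∀ j, ∃ η : Polynomial ℂ, η.natDegree ≤ a ∧ ∀ s t : ℂ,
      (s * p none + t * q none) * hev a η s t = eval (s • p + t • q) (D.F j) := by
    intro j
    obtain ⟨f, hf, hfe⟩ := mem_restr (hD.fd.hom j) p q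
    rw [ha] at hf hfe
    have hz : ∀ j, eval (q none • p + (-p none) • q) (D.F j) = 0 := by
      rw [hD.fd.zero]
      constructor
      · rw [hlin]; ring
      · have h1 := hp.mem
        have h2 : (fun i => (q none • p + (-p none) • q) (some i)) =
            fun i => q none * p (some i) - p none * q (some i) := by
          funext i
          rw [hlin]; ring
        rw [h2]; exact h1
    obtain ⟨η, hη, hfη⟩ := mem_div hp.ne hf (by rw [hfe]; exact hz j)
    refine ⟨η, hη, fun s t => ?_⟩
    rw [← hfe, hfη, add_comm a 1, hev_mul (mem_deg_lin _ _) hη, mem_hev_lin]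
  choose η hηd hη using hex
  have hsplit : ∀ s t : ℂ, (s * p none + t * q none) • hevv a η s t =
      ev D.F (s • p + t • q) := fun s t => funext fun j => hη j s t
  set y : Option (Fin D.w) × D.ν → Polynomial ℂ := fun i =>
    (Polynomial.C (p i.1) + Polynomial.C (q i.1) * Polynomial.X) * η i.2 with hy
  have hyv : ∀ s t : ℂ, hevv D.a y s t = seg (s • p + t • q) (hevv a η s t) := by
    intro s t
    funext i
    have h1 : hev D.a (y i) s t = (s * p i.1 + t * q i.1) * hev a (η i.2) s t := by
      rw [ha, add_comm a 1, hy]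
      rw [hev_mul (mem_deg_lin _ _) (hηd i.2), mem_hev_lin]
    exact h1
  have hyd : ∀ i, (y i).natDegree ≤ D.a := by
    intro i
    refine Polynomial.natDegree_mul_le.trans ?_
    have h1 := mem_deg_lin (p i.1) (q i.1)
    have h2 := hηd i.2
    omega
  -- the vector `s p + t q` does not vanish
  have hxne : ∀ s t : ℂ, (s, t) ≠ (0, 0) → s • p + t • q ≠ 0 := by
    intro s t hst h0
    have h1 := LinearIndependent.pair_iff.1 hp.ind s t h0
    exact hst (Prod.ext h1.1 h1.2)
  -- `η` has no zero
  have hηne : ∀ s t : ℂ, (s, t) ≠ (0, 0) → hevv a η s t ≠ 0 := by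
    intro s t hst h0
    by_cases hg : s * p none + t * q none = 0
    · obtain ⟨o, ho⟩ := Function.ne_iff.1 (hxne s t hst)
      have hm : HomE (D.a - 1) ((X o : MvPolynomial (Option (Fin D.w)) ℂ) ^ a) := by
        rw [ha1]
        have := (homE_X o).pow a
        rwa [one_mul] at this
      have hsp := hD.fd.span _ hm
      rw [Submodule.mem_span_range_iff_exists_fun] at hsp
      obtain ⟨l, hl⟩ := hsp
      have h2 : ∀ s t : ℂ, (s * p o + t * q o) ^ a = ∑ j, l j * hev a (η j) s t := by
        refine mem_ext hp.ne (by fun_prop) ?_ ?_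
        · refine continuous_finsetSum _ fun j _ => ?_
          exact continuous_const.mul (mem_cont_hev a (η j))
        · intro s t hst
          have h3 := congrArg (eval (s • p + t • q)) hl
          rw [map_sum, map_mul, map_pow, eval_X, eval_X, hlin, hlin] at h3
          have h4 : (s * p none + t * q none) * (∑ j, l j * hev a (η j) s t) =
              (s * p none + t * q none) * (s * p o + t * q o) ^ a := by
            rw [← h3, Finset.mul_sum]
            refine Finset.sum_congr rfl fun j _ => ?_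
            rw [smul_eval, ← hη j s t]
            ring
          exact (mul_left_cancel₀ hst h4).symm
      have h5 := h2 s t
      have h6 : ∑ j, l j * hev a (η j) s t = 0 := by
        refine Finset.sum_eq_zero fun j _ => ?_
        have : hev a (η j) s t = 0 := congrFun h0 j
        rw [this, mul_zero]
      rw [h6] at h5
      exact pow_ne_zero _ ho h5
    · have h1 := hsplit s t
      rw [h0, smul_zero] at h1
      have h2 := (hD.fd.zero (s • p + t • q)).1 fun j => (congrFun h1 j).symm
      exact hg h2.1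
  have hY : ∀ s t : ℂ, s * p none + t * q none ≠ 0 →
      D.gr (s • p + t • q) = (s * p none + t * q none) • hevv D.a y s t := by
    intro s t _
    rw [hyv, ← seg_smul_right, hsplit]
    rfl
  refine ⟨y, η, ⟨hyd, ?_⟩, ⟨?_, ?_⟩, ?_, ?_, ?_, ?_⟩
  · intro s t hst
    rw [hyv]
    exact seg_ne_zero (hxne s t hst) (hηne s t hst)
  · intro i; rw [ha1]; exact hηd i
  · intro s t hst; rw [ha1]; exact hηne s t hst
  · intro s t; rw [ha1]; exact hyv s t
  · intro s t
    refine zclosed_iff.1 hD.Ypm.closed _ fun P hP => ?_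
    revert s t
    refine mem_ext (Ψ := fun _ _ => 0) hp.ne (mem_cont_eval P fun i => mem_cont_hev D.a (y i))
      continuous_const ?_
    intro s t hst
    have h1 := yc_cone (s * p none + t * q none)⁻¹ (D.gr_mem (s • p + t • q))
    rw [hY s t hst, smul_smul, inv_mul_cancel₀ hst, one_smul] at h1
    exact mem_vI.1 hP _ h1
  · intro s t
    funext i
    revert s t
    refine mem_ext hp.ne ?_ ?_ ?_
    · unfold pt
      fun_prop
    · refine mem_cont_eval (D.E i) fun o => ?_
      cases o with
      | inl o => exact continuous_const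
      | inr o => exact mem_cont_hev D.a (y o)
    · intro s t hst
      have h1 := congrFun (hc s t) i
      rw [hY s t hst, ev2_smul_right hD.xd.hom, Pi.smul_apply, Pi.smul_apply, smul_eq_mul,
        smul_eq_mul] at h1
      exact mul_left_cancel₀ (pow_ne_zero _ hst) h1
  · intro s t; rw [ha1]; exact hsplit s t

end Pool.Agent.Helper87.VM
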